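import Mathlib
import Pool.Agent.H572Z.Sp.Main

set_option autoImplicit false

open MeasureTheory Set Pool.Agent.H572Z.Sp
open scoped ENNReal

/-- **The separated bump conjecture at `p = 2`.** Let `Φ₁, Φ₂` be Young functions whose
reciprocals are integrable near infinity and let `w, σ` be weights on `ℝ^d` that satisfy both
separated bump conditions over all cubes. Then for every Calderon-Zygmund operator `T` there is a
constant `C` such that for every bounded, compactly supported, measurable `f` the image `T(f w)`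
exists and `∫ |T(f w)|² σ ≤ C ∫ |f|² w`. -/
theorem Pool.Agent.Results.MP_93f72d_an.ASeparatedBump.result :
    ∀ (d : ℕ), 1 ≤ d → ∀ (Φ₁ Φ₂ : ℝ → ℝ), IsYoung Φ₁ → IsYoung Φ₂ →
      (∃ c : ℝ, 0 < c ∧ (∫⁻ x in Ioi c, (ENNReal.ofReal (Φ₁ x))⁻¹) < ⊤ ∧
        (∫⁻ x in Ioi c, (ENNReal.ofReal (Φ₂ x))⁻¹) < ⊤) →
      ∀ (w σ : E d → ℝ), IsWeight w → IsWeight σ →
      bump Φ₁ w σ < ⊤ → bump Φ₂ σ w < ⊤ →
      ∀ (T : (E d → ℂ) → E d → ℂ), IsCZO T →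
      ∃ C : NNReal, ∀ f : E d → ℂ, Measurable f → (∃ M : ℝ, ∀ x, ‖f x‖ ≤ M) →
        HasCompactSupport f →
        (∃ h, IsImage T (fun x => f x * (w x : ℂ)) h) ∧
        ∀ h, IsImage T (fun x => f x * (w x : ℂ)) h → sqNorm σ h ≤ (C : ℝ≥0∞) * sqNorm w f :=
  fun _ hd _ _ h₁ h₂ ⟨c, hc, hi₁, hi₂⟩ _ _ hw hσ hb₁ hb₂ _ hT =>
    main hd h₁ h₂ ⟨c, hc, hi₁⟩ ⟨c, hc, hi₂⟩ hw hσ hb₁ (by simpa only [bump, mul_comm] using hb₂) hT
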